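import Pool.Agent.H37.CNX.Stmts
import Pool.Agent.H12.CNP.ELH

/-!
# Row XGR of the board `cnx`: the group data
-/

set_option autoImplicit false

namespace Pool.CND

open Matrix

/-- a finite family in an algebraically closed field, independent over the prime field -/
private theorem xgr_indep (p : ℕ) [Fact p.Prime] (k : Type) [Field k] [IsAlgClosed k] [CharP k p]
    (H : Type) [Fintype H] : ∃ c : H → k, ∀ b : H → ZMod p,
      ∑ h, c h * fp k (b h) = 0 → ∀ h, b h = 0 := by
  let _ : Algebra (ZMod p) k := ZMod.algebra k p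
  have hinf : Infinite k := IsAlgClosed.instInfinite
  let B := Module.Basis.ofVectorSpace (ZMod p) k
  have hB : Infinite (Module.Basis.ofVectorSpaceIndex (ZMod p) k) := by
    by_contra h
    have hf : Finite (Module.Basis.ofVectorSpaceIndex (ZMod p) k) := not_infinite_iff_finite.1 h
    have h1 : Module.Finite (ZMod p) k := Module.Finite.of_basis B
    have h2 : Finite k := Module.finite_of_finite (ZMod p)
    exact not_finite k
  obtain ⟨f⟩ : Nonempty (H ↪ Module.Basis.ofVectorSpaceIndex (ZMod p) k) :=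
    ⟨(Fintype.equivFin H).toEmbedding.trans (Fin.valEmbedding.trans (Infinite.natEmbedding _))⟩
  have hli := B.linearIndependent.comp f f.injective
  refine ⟨fun h => B (f h), fun b hb h => ?_⟩
  rw [Fintype.linearIndependent_iff] at hli
  refine hli b ?_ h
  rw [← hb]
  refine Finset.sum_congr rfl fun x _ => ?_
  rw [Algebra.smul_def, mul_comm]
  rfl

theorem xgr_thm : S_XGR := by
  intro p d k G _ _ _ _ _ M z hp hX
  classical
  have : Fact p.Prime := ⟨hp⟩
  obtain ⟨n, ⟨φ⟩⟩ := ea_equiv p G M hp hX.ea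
  have hn : M.Normal := ⟨fun a ha g => hX.normal g a ha⟩
  let c : G → (M ≃* M) := fun g => MulAut.conjNormal g
  have hc : ∀ g (a : M), ((c g a : M) : G) = g * a * g⁻¹ := fun g a => rfl
  have hcs : ∀ g (a : M), (((c g).symm a : M) : G) = g⁻¹ * a * g := by
    intro g a
    have h1 := hc g ((c g).symm a)
    rw [MulEquiv.apply_symm_apply] at h1
    rw [h1]
    group
  let L : G → ((Fin n → ZMod p) →+ (Fin n → ZMod p)) := fun g =>
    { toFun := fun v => Multiplicative.toAdd (φ ((c g).symm (φ.symm (Multiplicative.ofAdd v))))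
      map_zero' := by simp
      map_add' := fun v w => by simp }
  let S : G → Matrix (Fin n) (Fin n) (ZMod p) := fun g =>
    LinearMap.toMatrix' ((L g).toZModLinearMap p)
  have hS : ∀ g v, S g *ᵥ v =
      Multiplicative.toAdd (φ ((c g).symm (φ.symm (Multiplicative.ofAdd v)))) := by
    intro g v
    change (LinearMap.toMatrix' ((L g).toZModLinearMap p)) *ᵥ v = _
    rw [LinearMap.toMatrix'_mulVec]
    rfl
  have hSa : ∀ g (a : M), S g *ᵥ Multiplicative.toAdd (φ a) =
      Multiplicative.toAdd (φ ((c g).symm a)) := by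
    intro g a
    rw [hS, ofAdd_toAdd, MulEquiv.symm_apply_apply]
  have hext : ∀ A B : Matrix (Fin n) (Fin n) (ZMod p),
      (∀ a : M, A *ᵥ Multiplicative.toAdd (φ a) = B *ᵥ Multiplicative.toAdd (φ a)) → A = B := by
    intro A B h
    refine Matrix.mulVec_injective (funext fun v => ?_)
    have := h (φ.symm (Multiplicative.ofAdd v))
    rwa [MulEquiv.apply_symm_apply, toAdd_ofAdd] at this
  have hSmul : ∀ g h : G, S (g * h) = S h * S g := by
    intro g h
    apply hext
    intro a
    rw [← Matrix.mulVec_mulVec, hSa, hSa, hSa]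
    congr 2
    apply Subtype.ext
    rw [hcs, hcs, hcs]
    group
  have hSone : ∀ a ∈ M, S a = 1 := by
    intro a ha
    apply hext
    intro b
    rw [hSa, Matrix.one_mulVec]
    congr 2
    apply Subtype.ext
    rw [hcs, mul_assoc, hX.ea.2 _ b.2 _ ha, ← mul_assoc, inv_mul_cancel, one_mul]
  let z' : M := ⟨z, hX.z_mem⟩
  obtain ⟨zv, hzv⟩ : ∃ zv, zv = Multiplicative.toAdd (φ z') := ⟨_, rfl⟩
  have hz0 : zv ≠ 0 := by
    rw [hzv]
    intro h
    have h1 : φ z' = 1 := h
    have h2 : z' = 1 := by
      apply φ.injective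
      rw [h1, map_one]
    exact hX.z_ne (congrArg Subtype.val h2)
  have hSz : ∀ g, S g *ᵥ zv = zv := by
    intro g
    rw [hzv, hSa]
    congr 2
    apply Subtype.ext
    rw [hcs]
    show g⁻¹ * z * g = z
    rw [mul_assoc, ← hX.z_central, ← mul_assoc, inv_mul_cancel, one_mul]
  -- the elements with small commutators
  let H : Type := {h : M // ∀ g' : G, g' * h * g'⁻¹ * (h : G)⁻¹ ∈ Subgroup.zpowers z}
  have hfin : Finite H := Subtype.finite
  have : Fintype H := Fintype.ofFinite H
  have hβ : ∀ (h : H) (g : G), ∃ b : ZMod p,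
      S g *ᵥ Multiplicative.toAdd (φ h.1) = Multiplicative.toAdd (φ h.1) + b • zv := by
    intro h g
    have h1 := h.2 g⁻¹
    rw [inv_inv] at h1
    obtain ⟨m, hm⟩ := Subgroup.mem_zpowers_iff.1 h1
    refine ⟨(m : ZMod p), ?_⟩
    rw [hSa]
    have h2 : (c g).symm h.1 = z' ^ m * h.1 := by
      apply Subtype.ext
      rw [hcs]
      show g⁻¹ * (h.1 : G) * g = z ^ m * (h.1 : G)
      rw [hm]
      group
    rw [h2, map_mul, map_zpow, toAdd_mul, toAdd_zpow, ← hzv, add_comm]
    congr 1
    funext i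
    simp
  choose β hβ using hβ
  have huniq : ∀ b b' : ZMod p, b • zv = b' • zv → b = b' := fun b b' h =>
    smul_left_injective _ hz0 h
  have hβmul : ∀ h g g', β h (g * g') = β h g + β h g' := by
    intro h g g'
    apply huniq
    have h1 := hβ h (g * g')
    rw [hSmul, ← Matrix.mulVec_mulVec, hβ h g, Matrix.mulVec_add, Matrix.mulVec_smul, hSz,
      hβ h g'] at h1
    rw [add_assoc] at h1
    have h2 := add_left_cancel h1
    rw [← h2, add_smul, add_comm]
  have hβM : ∀ h, ∀ a ∈ M, β h a = 0 := by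
    intro h a ha
    apply huniq
    have h1 := hβ h a
    rw [hSone a ha, Matrix.one_mulVec] at h1
    rw [zero_smul]
    exact (left_eq_add.1 h1)
  have hβne : ∀ g, g ∉ M → ∃ h, β h g ≠ 0 := by
    intro g hg
    obtain ⟨h, hhM, hne, hh⟩ := hX.pair g hg
    refine ⟨⟨⟨h, hhM⟩, hh⟩, fun h0 => hne ?_⟩
    have h1 := hβ ⟨⟨h, hhM⟩, hh⟩ g
    rw [h0, zero_smul, add_zero, hSa] at h1
    have h2 : (c g).symm ⟨h, hhM⟩ = ⟨h, hhM⟩ := φ.injective (Multiplicative.toAdd.injective h1)
    have h3 := congrArg Subtype.val h2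
    rw [hcs] at h3
    have h4 : g⁻¹ * h * g = h := h3
    calc g * h = g * (g⁻¹ * h * g) := by rw [h4]
      _ = h * g := by group
  obtain ⟨cc, hcc⟩ := xgr_indep p k H
  have fadd : ∀ a b : ZMod p, fp k (a + b) = fp k a + fp k b := fun a b => map_add _ a b
  have fmul : ∀ a b : ZMod p, fp k (a * b) = fp k a * fp k b := fun a b => map_mul _ a b
  have fzero : fp k (0 : ZMod p) = 0 := map_zero _
  refine ⟨n, φ, S, fun g => ∑ h : H, cc h * fp k (β h g), zv,
    fun i => ∑ h : H, cc h * fp k (Multiplicative.toAdd (φ h.1) i), ⟨?_, hSmul, hSone, ?_, ?_⟩,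
    ⟨z', rfl, hzv.symm⟩, hz0, fun g => ⟨hSz g, fun i => ?_⟩⟩
  · intro g a
    exact ⟨c g a, hc g a, by rw [hSa, MulEquiv.symm_apply_apply]⟩
  · intro g h
    rw [← Finset.sum_add_distrib]
    exact Finset.sum_congr rfl fun x _ => by rw [hβmul, fadd, mul_add]
  · intro g
    constructor
    · intro h0
      by_contra hg
      obtain ⟨h, hh⟩ := hβne g hg
      exact hh (hcc (fun h => β h g) h0 h)
    · intro hg
      exact Finset.sum_eq_zero fun x _ => by rw [hβM x g hg, fzero, mul_zero]
  · have h1 : ∀ h : H, ∑ j, fp k (S g i j) * fp k (Multiplicative.toAdd (φ h.1) j) =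
        fp k (Multiplicative.toAdd (φ h.1) i) + fp k (β h g) * fp k (zv i) := by
      intro h
      have h2 := congrFun (hβ h g) i
      have h3 : ∑ j, fp k (S g i j) * fp k (Multiplicative.toAdd (φ h.1) j) =
          fp k ((S g *ᵥ Multiplicative.toAdd (φ h.1)) i) := by
        simp only [Matrix.mulVec, dotProduct]
        rw [show fp k (∑ j, S g i j * Multiplicative.toAdd (φ h.1) j) =
          ∑ j, fp k (S g i j * Multiplicative.toAdd (φ h.1) j) from map_sum _ _ _]
        exact Finset.sum_congr rfl fun j _ => (fmul _ _).symm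
      rw [h3, h2, Pi.add_apply, Pi.smul_apply, smul_eq_mul, fadd, fmul]
    calc ∑ j, fp k (S g i j) * ∑ h : H, cc h * fp k (Multiplicative.toAdd (φ h.1) j)
        = ∑ h : H, cc h * ∑ j, fp k (S g i j) * fp k (Multiplicative.toAdd (φ h.1) j) := by
          simp only [Finset.mul_sum]
          rw [Finset.sum_comm]
          exact Finset.sum_congr rfl fun x _ => Finset.sum_congr rfl fun y _ => by ring
      _ = ∑ h : H, (cc h * fp k (Multiplicative.toAdd (φ h.1) i) +
            cc h * fp k (β h g) * fp k (zv i)) :=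
          Finset.sum_congr rfl fun x _ => by rw [h1]; ring
      _ = _ := by
          rw [Finset.sum_add_distrib, Finset.sum_mul]

end Pool.CND
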